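import Pool.Agent.H743.X17.Stm
import Pool.Agent.H743.X17.Kit

/-!
# The class of an integer in `ℚ_p^* / (ℚ_p^*)²`, `p` odd, written additively
-/

set_option autoImplicit false
set_option linter.all false

open scoped Classical

namespace Pool.Agent.H962.X17

open Pool.Agent.H743.X17
open Pool.Agent.H468.X15 (ps dec pI val_of ps_of ps_unit val_unit val_p ps_p nd_mul nd_pow ps_mul
  val_mul jac_sq jac_pm jac_mul_self jac_mul_sq jac_congr ps_sq val_sq ps_pm nd_of_coprime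
  sq_val sq_ps)

/-- the parity of the valuation -/
noncomputable def V (p : ℕ) (n : ℤ) : ZMod 2 := (padicValInt p n : ZMod 2)

/-- the additive symbol of the unit part -/
noncomputable def L (p : ℕ) (n : ℤ) : ZMod 2 := if ps p n = 1 then 0 else 1

/-- the additive symbol of a unit -/
def J (p : ℕ) (n : ℤ) : ZMod 2 := if jacobiSym n p = 1 then 0 else 1

variable {p : ℕ} [hp : Fact p.Prime]

theorem V_mul {m n : ℤ} (hm : m ≠ 0) (hn : n ≠ 0) : V p (m * n) = V p m + V p n := by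
  unfold V
  rw [val_mul hm hn]
  push_cast
  rfl

theorem L_mul {m n : ℤ} (hm : m ≠ 0) (hn : n ≠ 0) : L p (m * n) = L p m + L p n := by
  unfold L
  rw [ps_mul hm hn]
  rcases ps_pm (p := p) hm with h2 | h2 <;> rcases ps_pm (p := p) hn with h3 | h3 <;>
    rw [h2, h3] <;> norm_num
  decide

theorem J_mul {m n : ℤ} (hm : ¬ (p : ℤ) ∣ m) (hn : ¬ (p : ℤ) ∣ n) :
    J p (m * n) = J p m + J p n := by
  unfold J
  rw [jacobiSym.mul_left]
  rcases jac_pm (p := p) hm with h2 | h2 <;> rcases jac_pm (p := p) hn with h3 | h3 <;>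
    rw [h2, h3] <;> norm_num
  decide

theorem V_unit {n : ℤ} (hn : ¬ (p : ℤ) ∣ n) : V p n = 0 := by
  unfold V
  rw [val_unit hn]
  rfl

theorem L_unit {n : ℤ} (hn : ¬ (p : ℤ) ∣ n) : L p n = J p n := by
  unfold L J
  rw [ps_unit hn]

theorem V_p {n : ℤ} (hn : n ≠ 0) : V p (p * n) = 1 + V p n := by
  rw [V_mul (by exact_mod_cast hp.out.ne_zero) hn]
  congr 1
  unfold V
  have := val_p (p := p) (u := 1) (fun h => hp.out.one_lt.ne' (by
    have := Int.natAbs_dvd_natAbs.2 h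
    simpa using this))
  rw [mul_one] at this
  rw [this]
  rfl

theorem L_p {n : ℤ} (hn : n ≠ 0) : L p (p * n) = L p n := by
  rw [L_mul (by exact_mod_cast hp.out.ne_zero) hn]
  have : L p (p : ℤ) = 0 := by
    unfold L
    have := ps_p (p := p) (u := 1) (fun h => hp.out.one_lt.ne' (by
      have := Int.natAbs_dvd_natAbs.2 h
      simpa using this))
    rw [mul_one] at this
    rw [this, jacobiSym.one_left, if_pos rfl]
  rw [this, zero_add]

theorem J_sq {n : ℤ} (hn : ¬ (p : ℤ) ∣ n) : J p (n ^ 2) = 0 := by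
  unfold J
  rw [sq, jacobiSym.mul_left, jac_mul_self hn, if_pos rfl]

theorem J_congr {m n : ℤ} (h : (p : ℤ) ∣ m - n) : J p m = J p n := by
  unfold J
  rw [jac_congr h]

theorem sq_V {n : ℤ} (hn : n ≠ 0) (h : IsSquare (n : ℚ_[p])) : V p n = 0 := by
  obtain ⟨k, hk⟩ := sq_val hn h
  unfold V
  rw [hk]
  push_cast
  exact CharTwo.add_self_eq_zero _

theorem sq_L {n : ℤ} (hn : n ≠ 0) (h : IsSquare (n : ℚ_[p])) : L p n = 0 := by
  unfold L
  rw [sq_ps hn h, if_pos rfl]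

theorem z2 {a b : ZMod 2} (h : a + b = 0) : a = b := by
  revert a b; decide

/-- the class of a squarefree integer -/
theorem V_sqf {n : ℤ} (hn : Squarefree n) : V p n = ind p n := by
  unfold ind
  split_ifs with h
  · obtain ⟨m, rfl⟩ := h
    have hm : ¬ (p : ℤ) ∣ m := by
      rintro ⟨k, rfl⟩
      exact pI.not_unit (hn (p : ℤ) ⟨k, by ring⟩)
    have hm0 : m ≠ 0 := by rintro rfl; exact hm (dvd_zero _)
    rw [V_p hm0, V_unit hm, add_zero]
  · exact V_unit h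

theorem L_sqf {n : ℤ} (hn : Squarefree n) : L p n = lam p n := by
  by_cases h' : (p : ℤ) ∣ n
  · obtain ⟨m, rfl⟩ := h'
    have hm : ¬ (p : ℤ) ∣ m := by
      rintro ⟨k, rfl⟩
      exact pI.not_unit (hn (p : ℤ) ⟨k, by ring⟩)
    have hm0 : m ≠ 0 := by rintro rfl; exact hm (dvd_zero _)
    have hpz : (p : ℤ) ≠ 0 := by exact_mod_cast hp.out.ne_zero
    have e : up p ((p : ℤ) * m) = m := by
      unfold up
      rw [if_pos (dvd_mul_right _ _), Int.mul_ediv_cancel_left _ hpz]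
    rw [L_p hm0, L_unit hm]
    unfold lam J
    rw [e]
  · have e : up p n = n := by
      unfold up
      rw [if_neg h']
    rw [L_unit h']
    unfold lam J
    rw [e]

/-- the data of a local point -/
theorem data {A B u v : ℤ} (hu : Squarefree u) (hv : Squarefree v) (h : LS A B u v ℚ_[p]) :
    ∃ r t : ℤ, IsCoprime r t ∧ r ≠ 0 ∧ r + A * t ^ 2 ≠ 0 ∧ r + B * t ^ 2 ≠ 0 ∧
      V p r = ind p u ∧ L p r = lam p u ∧ V p (r + A * t ^ 2) = ind p v ∧
      L p (r + A * t ^ 2) = lam p v ∧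
      V p r + V p (r + A * t ^ 2) + V p (r + B * t ^ 2) = 0 ∧
      L p r + L p (r + A * t ^ 2) + L p (r + B * t ^ 2) = 0 := by
  obtain ⟨x, y, hy, hxy, h1, h2⟩ := h
  obtain ⟨r, t, hrt, n1, n2, n3, k1, k2, k3⟩ := appr A B hy hxy
  refine ⟨r, t, hrt, n1, n2, n3, ?_, ?_, ?_, ?_, ?_, ?_⟩
  · rw [← V_sqf hu]
    have := sq_V (mul_ne_zero n1 hu.ne_zero) (k1 u h1)
    rw [V_mul n1 hu.ne_zero] at this
    exact z2 this
  · rw [← L_sqf hu]
    have := sq_L (mul_ne_zero n1 hu.ne_zero) (k1 u h1)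
    rw [L_mul n1 hu.ne_zero] at this
    exact z2 this
  · rw [← V_sqf hv]
    have := sq_V (mul_ne_zero n2 hv.ne_zero) (k2 v h2)
    rw [V_mul n2 hv.ne_zero] at this
    exact z2 this
  · rw [← L_sqf hv]
    have := sq_L (mul_ne_zero n2 hv.ne_zero) (k2 v h2)
    rw [L_mul n2 hv.ne_zero] at this
    exact z2 this
  · have := sq_V (mul_ne_zero (mul_ne_zero n1 n2) n3) k3
    rwa [V_mul (mul_ne_zero n1 n2) n3, V_mul n1 n2] at this
  · have := sq_L (mul_ne_zero (mul_ne_zero n1 n2) n3) k3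
    rwa [L_mul (mul_ne_zero n1 n2) n3, L_mul n1 n2] at this

/-- the symbol of `w t²` with `n ≡ w t²` -/
theorem L_near {n w t : ℤ} (hw : ¬ (p : ℤ) ∣ w) (ht : ¬ (p : ℤ) ∣ t) (h : (p : ℤ) ∣ n - w * t ^ 2) :
    ¬ (p : ℤ) ∣ n ∧ V p n = 0 ∧ L p n = J p w := by
  have hn : ¬ (p : ℤ) ∣ n := by
    intro h'
    have h1 := dvd_sub h' h
    rw [sub_sub_cancel] at h1
    exact nd_mul hw (nd_pow ht 2) h1
  refine ⟨hn, V_unit hn, ?_⟩
  rw [L_unit hn, J_congr h, J_mul hw (nd_pow ht 2), J_sq ht, add_zero]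

end Pool.Agent.H962.X17
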