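import Pool.Agent.H962.X17.Add

/-!
# X17 NECODD: local condition at an odd prime p | m, p ≠ 17 (necessary)
-/

set_option autoImplicit false
set_option linter.all false

open scoped Classical

namespace Pool.Agent.H962.X17

open Pool.Agent.H743.X17
open Pool.Agent.H468.X15 (ps dec pI val_of ps_of ps_unit val_unit val_p ps_p nd_mul nd_pow ps_mul
  val_mul jac_sq jac_pm jac_mul_self jac_mul_sq jac_congr ps_sq val_sq ps_pm nd_of_coprime
  sq_val sq_ps)

theorem nd2 {p : ℕ} [hp : Fact p.Prime] (h : p ≠ 2) : ¬ (p : ℤ) ∣ 2 := fun h' =>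
  h ((Nat.prime_dvd_prime_iff_eq hp.out Nat.prime_two).1 (by exact_mod_cast h'))

theorem nd17 {p : ℕ} [hp : Fact p.Prime] (h : p ≠ 17) : ¬ (p : ℤ) ∣ 17 := fun h' =>
  h ((Nat.prime_dvd_prime_iff_eq hp.out (by norm_num)).1 (by exact_mod_cast h'))

theorem nd1 {p : ℕ} [hp : Fact p.Prime] : ¬ (p : ℤ) ∣ -1 := fun h' =>
  pI.not_unit (isUnit_of_dvd_unit h' (by norm_num))

theorem ndn {p : ℕ} [hp : Fact p.Prime] {n : ℤ} (h : ¬ (p : ℤ) ∣ n) : ¬ (p : ℤ) ∣ -n := fun h' =>
  h ((dvd_neg).1 h')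

/-- if `p` does not divide `r` then all the three factors are the same units, hence squares -/
theorem all_units {p : ℕ} [hp : Fact p.Prime] {r b c : ℤ} (hr : ¬ (p : ℤ) ∣ r)
    (hb : (p : ℤ) ∣ b - r) (hc : (p : ℤ) ∣ c - r) (hL : L p r + L p b + L p c = 0) :
    V p r = 0 ∧ V p b = 0 ∧ L p r = 0 ∧ L p b = 0 := by
  have ub : ¬ (p : ℤ) ∣ b := by
    intro h'
    have := dvd_sub h' hb
    rw [sub_sub_cancel] at this
    exact hr this
  have uc : ¬ (p : ℤ) ∣ c := by
    intro h'
    have := dvd_sub h' hc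
    rw [sub_sub_cancel] at this
    exact hr this
  rw [L_unit hr, L_unit ub, L_unit uc, J_congr hb, J_congr hc] at hL
  have e : J p r = 0 := by
    generalize J p r = a at *
    revert a
    decide
  exact ⟨V_unit hr, V_unit ub, by rw [L_unit hr, e], by rw [L_unit ub, J_congr hb, e]⟩

theorem t_NECODD : S_NECODD := by
  intro p hp m u v h2 h17 hpm hm hu hv h
  obtain ⟨m', rfl⟩ := hpm
  have hm' : ¬ (p : ℤ) ∣ m' := by
    rintro ⟨k, rfl⟩
    exact pI.not_unit (hm (p : ℤ) ⟨k, by ring⟩)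
  have hpz : (p : ℤ) ≠ 0 := by exact_mod_cast hp.out.ne_zero
  have n2 := nd2 h2
  have n17 := nd17 h17
  have n1 := nd1 (p := p)
  have n4 : ¬ (p : ℤ) ∣ 4 := by
    have := nd_pow n2 2
    norm_num at this
    exact this
  -- the symbols on the right
  have e1 : lam p (-((p : ℤ) * m')) = J p (-1) + J p m' := by
    have e : up p (-((p : ℤ) * m')) = (-1) * m' := by
      unfold up
      rw [if_pos (Dvd.dvd.neg_right (dvd_mul_right _ _)), show -((p : ℤ) * m') = p * (-1 * m') by ring,
        Int.mul_ediv_cancel_left _ hpz]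
    rw [← J_mul n1 hm']
    unfold lam J
    rw [e]
  have e2 : lam p ((p : ℤ) * m') = J p m' := by
    have e : up p ((p : ℤ) * m') = m' := by
      unfold up
      rw [if_pos (dvd_mul_right _ _), Int.mul_ediv_cancel_left _ hpz]
    unfold lam J
    rw [e]
  have e3 : lam p (-1) = J p (-1) := by
    have e : up p (-1) = -1 := by
      unfold up
      rw [if_neg n1]
    unfold lam J
    rw [e]
  have e4 : lam p 17 = J p 17 := by
    have e : up p 17 = 17 := by
      unfold up
      rw [if_neg n17]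
    unfold lam J
    rw [e]
  rw [e1, e2, e3, e4]
  obtain ⟨r, t, hrt, a1, a2, a3, b1, b2, b3, b4, b5, b6⟩ := data hu hv h
  rw [← b1, ← b2, ← b3, ← b4]
  clear b1 b2 b3 b4
  by_cases hr : (p : ℤ) ∣ r
  · have ht := nd_of_coprime hrt hr
    obtain ⟨a, rfl⟩ := hr
    have eB : (p : ℤ) * a + p * m' * t ^ 2 = p * (a + m' * t ^ 2) := by ring
    have eC : (p : ℤ) * a + -16 * (p * m') * t ^ 2 = p * (a - 16 * m' * t ^ 2) := by ring
    rw [eB] at a2 b5 b6 ⊢
    rw [eC] at a3 b5 b6
    have c1 := right_ne_zero_of_mul a1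
    have c2 := right_ne_zero_of_mul a2
    have c3 := right_ne_zero_of_mul a3
    rw [V_p c1, V_p c2, V_p c3] at b5
    rw [L_p c1, L_p c2, L_p c3] at b6
    rw [V_p c1, V_p c2, L_p c1, L_p c2]
    have j4 : ∀ w : ℤ, ¬ (p : ℤ) ∣ w → J p (4 ^ 2 * w) = J p w := fun w hw => by
      rw [J_mul (nd_pow n4 2) hw, J_sq n4, zero_add]
    by_cases k1 : (p : ℤ) ∣ a
    · obtain ⟨-, q1, q2⟩ := L_near (n := a + m' * t ^ 2) (w := m') hm' ht (by
        rw [add_sub_cancel_right]; exact k1)
      obtain ⟨-, q3, q4⟩ := L_near (n := a - 16 * m' * t ^ 2) (w := -1 * (4 ^ 2 * m'))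
        (nd_mul n1 (nd_mul (nd_pow n4 2) hm')) ht (by
        rw [show a - 16 * m' * t ^ 2 - -1 * (4 ^ 2 * m') * t ^ 2 = a by ring]; exact k1)
      rw [J_mul n1 (nd_mul (nd_pow n4 2) hm'), j4 _ hm'] at q4
      rw [q1, q3] at b5
      rw [q2, q4] at b6
      rw [q1, q2]
      generalize V p a = x1 at *
      generalize L p a = x2 at *
      generalize J p m' = x3 at *
      generalize J p (-1) = x4 at *
      generalize J p 17 = x5 at *
      clear e1 e2 e3 e4 q2 q4
      revert x1 x2 x3 x4 x5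
      decide
    · have v1 := V_unit k1
      rw [v1] at b5 ⊢
      by_cases k2 : (p : ℤ) ∣ a + m' * t ^ 2
      · obtain ⟨-, q1, q2⟩ := L_near (n := a) (w := -1 * m') (nd_mul n1 hm') ht (by
          rw [show a - -1 * m' * t ^ 2 = a + m' * t ^ 2 by ring]; exact k2)
        obtain ⟨-, q3, q4⟩ := L_near (n := a - 16 * m' * t ^ 2) (w := -1 * m' * 17)
          (nd_mul (nd_mul n1 hm') n17) ht (by
          rw [show a - 16 * m' * t ^ 2 - -1 * m' * 17 * t ^ 2 = a + m' * t ^ 2 by ring]; exact k2)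
        rw [J_mul n1 hm'] at q2
        rw [J_mul (nd_mul n1 hm') n17, J_mul n1 hm'] at q4
        rw [q3] at b5
        rw [q2, q4] at b6
        rw [q2]
        generalize V p (a + m' * t ^ 2) = x1 at *
        generalize L p (a + m' * t ^ 2) = x2 at *
        generalize J p m' = x3 at *
        generalize J p (-1) = x4 at *
        generalize J p 17 = x5 at *
        clear e1 e2 e3 e4 q2 q4
        revert x1 x2 x3 x4 x5
        decide
      · have v2 := V_unit k2
        rw [v2] at b5 ⊢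
        by_cases k3 : (p : ℤ) ∣ a - 16 * m' * t ^ 2
        · obtain ⟨-, q1, q2⟩ := L_near (n := a) (w := 4 ^ 2 * m')
            (nd_mul (nd_pow n4 2) hm') ht (by
            rw [show a - 4 ^ 2 * m' * t ^ 2 = a - 16 * m' * t ^ 2 by ring]; exact k3)
          obtain ⟨-, q3, q4⟩ := L_near (n := a + m' * t ^ 2) (w := 17 * m')
            (nd_mul n17 hm') ht (by
            rw [show a + m' * t ^ 2 - 17 * m' * t ^ 2 = a - 16 * m' * t ^ 2 by ring]; exact k3)
          rw [j4 _ hm'] at q2
          rw [J_mul n17 hm'] at q4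
          rw [q2, q4]
          generalize J p m' = x3 at *
          generalize J p (-1) = x4 at *
          generalize J p 17 = x5 at *
          clear e1 e2 e3 e4 q2 q4 b5 b6
          revert x3 x4 x5
          decide
        · exfalso
          rw [V_unit k3] at b5
          revert b5
          decide
  · obtain ⟨q1, q2, q3, q4⟩ := all_units hr (b := r + p * m' * t ^ 2)
      (c := r + -16 * (p * m') * t ^ 2) ⟨m' * t ^ 2, by ring⟩ ⟨-16 * m' * t ^ 2, by ring⟩ b6
    rw [q1, q2, q3, q4]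
    simp

end Pool.Agent.H962.X17
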